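import Pool.Agent.TH691.US.Sym
import Pool.Agent.TH667.J1581
import Pool.Agent.TH897.J1582
import Pool.Agent.TH645.J1583
import Pool.Agent.TH645.J1584

/-!
Let `p n` be the probability that `Av(π)` is unsplittable for a uniformly random permutation `π`
of size `n`. Then `p n` converges to `e ^ (-2)`; in particular `liminf p n = limsup p n = e ^ (-2)`.

Idea: `Av(π)` is unsplittable for simple `π` (inflate), and `π` is simple with probability tending
to `e ^ (-2)`. If `π` is not simple then with high probability it has two consecutive positions
with consecutive values, say increasing ones. Then there are two pointed permutations in `Av(π)`,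
each with about `2 n` entries (a slightly modified copy of `π` together with a second copy without
its two smallest entries, placed above and around the marked entry, one of whose entries is
doubled), which cannot be amalgamated over the marked entry inside `Av(π)`. This works for all
`π` outside an exceptional set of density tending to `0`.
-/

namespace Pool.Agent.Results.MP_d28c7d_co.LimitExpNegTwo

open Pool.Agent.W6.PS Filter Topology

/-- `p n` converges to `e ^ (-2)`. -/
theorem result : Tendsto p atTop (𝓝 (Real.exp (-2))) :=
  Pool.Agent.TH691.US.main Pool.Agent.TH691.US.unsplittable_of_simple
    Pool.Agent.TH897.J1582.frac_noAdj Pool.Agent.TH645.US.frac_block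
    Pool.Agent.TH645.US.frac_hull Pool.Agent.TH645.US.frac_low

end Pool.Agent.Results.MP_d28c7d_co.LimitExpNegTwo
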